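import Pool.Agent.H1.IEP.UL
import Pool.Agent.H7.IEP.FP
import Pool.Agent.H11.IEP.CV
import Pool.Agent.H13.IEP.ND
import Pool.Agent.H17.IEP.MB
import Pool.Agent.H19.IEP.FQ
import Pool.Agent.H19.IEP.LD
import Pool.Agent.H19.IEP.LP
import Pool.Agent.H20.IEP.RP
import Pool.Agent.H38.IEP.NP
import Pool.Agent.H38.IEP.RQ
import Pool.Agent.H39.IEP.MD
import Pool.Agent.H40.IEP.FI
import Pool.Agent.H42.IEP.NQ
import Pool.Agent.H42.IEP.SQ
import Pool.Agent.H66.IEP.SG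
import Pool.Agent.H76.IEP.MA
import Pool.Agent.H79.IEP.PF
import Pool.Agent.H89.IEP.LX
import Pool.Agent.H7.HD.All2

/-!
# MP_e37c09_lc: assembly of the theorem on functions on infinite sequences
-/

set_option autoImplicit false

open Ordinal Cardinal Order Set
open scoped ZFSet

universe u

namespace Pool.Agent.H10.IEP.All

open _root_.HD _root_.HD.All Pool.Agent.H10.IEP

theorem lp : T_LP.{u} := Pool.Agent.H19.IEP.LP.pf_LP la
theorem ld : T_LD.{u} := Pool.Agent.H19.IEP.LD.pf_LD lp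
theorem lx : T_LX.{u} := Pool.Agent.H89.IEP.pf_LX lp
theorem mb : T_MB.{u} := Pool.Agent.H17.IEP.pf_MB xe
theorem md : T_MD.{u} := Pool.Agent.H39.IEP.pf_MD xe
theorem pf : T_PF.{u} := Pool.Agent.H79.IEP.pf_PF mb md Pool.Agent.H42.IEP.pf_SQ
theorem fq : T_FQ.{u} := Pool.Agent.H19.IEP.FQ.pf_FQ db vh
theorem sg : T_SG.{u} := Pool.Agent.H66.IEP.pf_SG ld db vh
theorem np : T_NP.{u} := Pool.Agent.H38.IEP.pf_NP kd vc
theorem nq : T_NQ.{u} := Pool.Agent.H42.IEP.pf_NQ xd lp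
theorem nd : T_ND.{u} := Pool.Agent.H13.IEP.pf_ND xa xc xe np nq pf lx sg
theorem rp : T_RP.{u} := Pool.Agent.H20.IEP.pf_RP rc t_RL la lp
theorem rq : T_RQ.{u} := Pool.Agent.H38.IEP.pf_RQ rp xa
theorem fp : T_FP.{u} := Pool.Agent.H7.IEP.pf_FP Pool.Agent.H76.IEP.pf_MA ld vh fq
theorem cv : T_CV.{u} := Pool.Agent.H11.IEP.pf_CV
theorem ul : T_UL.{u} := Pool.Agent.H1.IEP.pf_UL

theorem o_IEP : T_IEP.{u} := Pool.Agent.H40.IEP.pf_FI yl fp nd rq cv xb xa ul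

end Pool.Agent.H10.IEP.All
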