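import Pool.Agent.H7.HD.Targets8

/-!
# MP_e37c09_lc: ordinal definable functions on sequences of infinite length

Colourings of the functions from `μ` to a regular cardinal `K`.
-/

open Ordinal Cardinal Order Set
open scoped ZFSet

universe u

namespace Pool.Agent.H10.IEP

open _root_.HD

/-! ## Statement-level definitions -/

/-- `A` is unbounded in `ρ` and closed under limits of cofinality at most `μ` (only the elements of
`A` below `ρ` matter). -/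
structure MC (μ ρ : Ordinal.{u}) (A : Set Ordinal.{u}) : Prop where
  unb : ∀ a < ρ, ∃ b < ρ, a < b ∧ b ∈ A
  cls : ∀ x < ρ, 0 < x → x.cof.ord ≤ μ → (∀ y < x, ∃ z < x, y < z ∧ z ∈ A) → x ∈ A

/-- the restriction of the function `g` to `μ`, as a set of ordered pairs -/
noncomputable def sq (μ : Ordinal.{u}) (g : Ordinal.{u} → Ordinal.{u}) : ZFSet.{u} :=
  ZFSet.range fun a : Iio μ => ZFSet.pair a.1.toZFSet (g a.1).toZFSet

theorem mem_sq {μ : Ordinal.{u}} {g : Ordinal.{u} → Ordinal.{u}} {p : ZFSet.{u}} :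
    p ∈ sq μ g ↔ ∃ a < μ, p = ZFSet.pair a.toZFSet (g a).toZFSet := by
  unfold sq
  rw [ZFSet.mem_range]
  constructor
  · rintro ⟨⟨a, ha⟩, rfl⟩
    exact ⟨a, ha, rfl⟩
  · rintro ⟨a, ha, rfl⟩
    exact ⟨⟨a, ha⟩, rfl⟩

/-- the relation `F` is functional -/
def Fn (F : ZFSet.{u}) : Prop := ∀ s x y, ZFSet.pair s x ∈ F → ZFSet.pair s y ∈ F → x = y

/-- `i` is a value of `F` on the functions from `μ` to `A`, for every set `A` of ordinals which is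
unbounded in `ρ` and closed under limits of cofinality at most `μ` -/
def Ph (μ ρ : Ordinal.{u}) (F : ZFSet.{u}) (i : Ordinal.{u}) : Prop :=
  ∀ A, MC μ ρ A → ∃ g : Ordinal.{u} → Ordinal.{u}, (∀ a < μ, g a < ρ ∧ g a ∈ A) ∧
    ZFSet.pair (sq μ g) i.toZFSet ∈ F

/-! ## Modules -/

/-- MA. Intersections. -/
def T_MA : Prop := ∀ (μ : Ordinal.{u}) (K : Cardinal.{u}), ω ≤ μ → K.IsRegular → ℵ₀ < K →
  ∀ τ < K.ord, ∀ A : Ordinal.{u} → Set Ordinal.{u}, (∀ i < τ, MC μ K.ord (A i)) →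
    MC μ K.ord {x | ∀ i < τ, x ∈ A i}

/-- The situation of the argument of Solovay. -/
structure SolP (δ η θ : Ordinal.{u}) (j : ZFSet.{u} → ZFSet.{u}) (μ κ ρ : Ordinal.{u}) : Prop where
  emb : Emb δ η θ j
  dom : ω < δ
  dreg : δ.cof.ord = δ
  oμ : ω ≤ μ
  μδ : μ < δ
  kη : κ < η
  kcof : δ ≤ κ.cof.ord
  lt : ∀ x < κ, Jo j x < ρ
  sup : ∀ y < ρ, ∃ x < κ, y < Jo j x

/-- MB. The range of the embedding. -/
def T_MB : Prop := ∀ (δ η θ : Ordinal.{u}) j μ κ ρ, SolP δ η θ j μ κ ρ →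
  MC μ ρ {y | ∃ x < κ, y = Jo j x}

/-- MD. Preimages. -/
def T_MD : Prop := ∀ (δ η θ : Ordinal.{u}) j μ κ ρ, SolP δ η θ j μ κ ρ → ∀ A, MC μ ρ A →
  MC μ κ {x | Jo j x ∈ A}

/-- SQ. The image of a sequence. -/
def T_SQ : Prop := ∀ (δ η θ : Ordinal.{u}) j, Emb δ η θ j → ∀ μ < δ, ∀ κ < η,
  ∀ g : Ordinal.{u} → Ordinal.{u}, (∀ a < μ, g a < κ) →
    sq μ g ∈ V_ η ∧ j (sq μ g) = sq μ fun a => Jo j (g a)

/-- PF. The argument of Solovay. -/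
def T_PF : Prop := ∀ (δ η θ : Ordinal.{u}) j μ κ ρ, SolP δ η θ j μ κ ρ → ∀ γ < η, ∀ F ∈ V_ η,
  Fn F → (∀ i < γ, Ph μ κ F i) → ∀ i < Jo j γ, (Ph μ ρ (j F) i ↔ ∃ i0 < γ, i = Jo j i0)

/-- LP. Local definability. -/
def T_LP : Prop := Loc.{u} fun v => (v 0).IsOrdinal ∧ (v 1).IsOrdinal ∧ (v 3).IsOrdinal ∧
  Ph (v 0).rank (v 1).rank (v 2) (v 3).rank

/-- LD. Definability. -/
def T_LD : Prop := ∀ F : ZFSet.{u}, OD F → DO fun w => Ph (w 0) (w 1) F (w 2)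

/-- the set of the values is cofinal in `β`, and its order type is less than `β` -/
def Sml (μ ρ : Ordinal.{u}) (F : ZFSet.{u}) (β : Ordinal.{u}) : Prop :=
  ∃ τ < β, ∃ h : Ordinal.{u} → Ordinal.{u}, (∀ a b, a < b → b < τ → h a < h b) ∧
    (∀ a < τ, h a < β) ∧ (∀ y < β, ∃ a < τ, y < h a) ∧
    ∀ i < β, (Ph μ ρ F i ↔ ∃ a < τ, i = h a)

/-- LX. Local definability of `Sml`. -/
def T_LX : Prop := Loc.{u} fun v => (v 0).IsOrdinal ∧ (v 1).IsOrdinal ∧ (v 3).IsOrdinal ∧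
  Sml (v 0).rank (v 1).rank (v 2) (v 3).rank

/-- SG. If `Sml` then `β` is singular in HOD. -/
def T_SG : Prop := ∀ (μ ρ : Ordinal.{u}) (F : ZFSet.{u}) (β : Ordinal.{u}), OD F → Sml μ ρ F β →
  SingHOD β

/-- the inaccessible cardinal `D` is such that no ordinal definable function on the functions from
`μ` to `K` takes `D` values on all sets of functions from `μ` to `A`, `A` as above -/
def GoodP (D : Cardinal.{u}) : Prop := D.IsRegular ∧ D.IsStrongLimit ∧ ℵ₀ < D ∧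
  ∀ (μ : Ordinal.{u}) (K : Cardinal.{u}), ω ≤ μ → μ < D.ord → K.IsRegular → D < K →
    ∀ F : ZFSet.{u}, OD F → Fn F → ¬ ∀ i < D.ord, Ph μ K.ord F i

/-- NP. A regular cardinal of HOD of countable cofinality. -/
def T_NP : Prop := ∀ D : Cardinal.{u}, GoodN D → ∃ α : Ordinal.{u}, D.ord < α ∧
  α < (succ D).ord ∧ α.cof = ℵ₀ ∧ ¬ SingHOD α

/-- NQ. The image of a function with many values. -/
def T_NQ : Prop := ∀ (δ η θ : Ordinal.{u}) j, Emb δ η θ j → ∀ μ < δ, ∀ K : Cardinal.{u},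
  K.IsRegular → K.ord < η → ∀ F ∈ V_ η, Fn F → (∀ i < δ, Ph μ K.ord F i) →
    Fn (j F) ∧ ∃ K' : Cardinal.{u}, K'.IsRegular ∧ Jo j K.ord = K'.ord ∧
      ∀ i < Jo j δ, Ph μ K'.ord (j F) i

/-- ND. No function with many values. -/
def T_ND : Prop := ∀ D : Cardinal.{u}, Extendible D.ord → GoodN D → GoodP D

/-- `GoodP` below `β` -/
def GoodQ (β δ : Ordinal.{u}) : Prop :=
  (∃ D : Cardinal.{u}, δ = D.ord ∧ D.IsRegular ∧ D.IsStrongLimit ∧ ℵ₀ < D) ∧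
  ∀ μ < δ, ω ≤ μ → ∀ κ < β, ω ≤ κ → Cf κ κ → δ < κ → ∀ f, ODb β f → Fn f →
    ¬ ∀ i < δ, Ph μ κ f i

/-- RP. `GoodQ` is locally definable. -/
def T_RP : Prop := Loc.{u} fun v => (v 0).IsOrdinal ∧ (v 1).IsOrdinal ∧
  GoodQ (v 0).rank (v 1).rank

/-- RQ. Reflection. -/
def T_RQ : Prop := ∀ D : Cardinal.{u}, Extendible D.ord → GoodP D → ∀ l < D.ord,
  ∃ D' : Cardinal.{u}, D' < D ∧ l < D'.ord ∧ GoodP D'

/-- the values of `F` below `γ` on the functions from `μ` to `A` -/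
def Vals (μ κ γ : Ordinal.{u}) (F : ZFSet.{u}) (A : Set Ordinal.{u}) : Set Ordinal.{u} :=
  {c | c < γ ∧ ∃ g : Ordinal.{u} → Ordinal.{u}, (∀ a < μ, g a < κ ∧ g a ∈ A) ∧
    ZFSet.pair (sq μ g) c.toZFSet ∈ F}

/-- FQ. The enumeration of the values. -/
def T_FQ : Prop := ∀ (δ : Ordinal.{u}) (F : ZFSet.{u}) (X : Set Ordinal.{u}), OD F → Fn F → DS X →
  ∃ F' : ZFSet.{u}, OD F' ∧ Fn F' ∧ ∀ s : ZFSet.{u}, ∀ i < δ, ∀ z, nth X i z →
    ZFSet.pair s z.toZFSet ∈ F → ZFSet.pair s i.toZFSet ∈ F'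

/-- FP. Few values. -/
def T_FP : Prop := ∀ D : Cardinal.{u}, GoodP D → ∀ (μ : Ordinal.{u}) (K : Cardinal.{u}), ω ≤ μ →
  μ < D.ord → K.IsRegular → D < K → ∀ F : ZFSet.{u}, OD F → Fn F → ∀ γ < K.ord,
    ∃ A, MC μ K.ord A ∧ Few D.ord (Vals μ K.ord γ F A)

/-- CV. The converse. -/
def T_CV : Prop := ∀ (τ : Ordinal.{u}) (K : Cardinal.{u}), K.IsRegular → ℵ₀ < K →
  HODPart τ K.ord → ∃ F : ZFSet.{u}, OD F ∧ Fn F ∧ ∀ i < τ, Ph ω K.ord F i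

/-- The theorem. -/
def T_IEP : Prop := ∀ δ : Ordinal.{u}, Extendible δ →
  (CaseA δ ∧ ∀ l : Ordinal.{u}, ∃ K : Cardinal.{u}, K.IsRegular ∧ l < K.ord ∧
    ∃ F : ZFSet.{u}, OD F ∧ Fn F ∧ ∀ A, MC ω K.ord A → Vals ω K.ord δ F A = Iio δ) ∨
  (¬ CaseA δ ∧ ∀ μ, ω ≤ μ → μ < δ → ∃ δ₀ < δ, μ < δ₀ ∧ ∀ K : Cardinal.{u}, K.IsRegular →
    δ₀ < K.ord → ∀ F : ZFSet.{u}, OD F → Fn F → ∀ γ < K.ord,
      ∃ A, MC μ K.ord A ∧ Few δ₀ (Vals μ K.ord γ F A))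

/-- FI. -/
def T_FI : Prop := T_YL.{u} → T_FP.{u} → T_ND.{u} → T_RQ.{u} → T_CV.{u} → T_XB.{u} → T_XA.{u} →
  T_UL.{u} → T_IEP.{u}

end Pool.Agent.H10.IEP
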